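import Pool.Agent.H547.EcFin

set_option autoImplicit false

/-!
# `Z_p(5)` and `Z_p(-49)` modulo `p²`

Main step: for `X = s/(1+8s)²`, `Y = s²/(1+4s)³`, `Y' = s/(1+16s)³` (in any commutative ring in which `p² = 0` and the
denominators are invertible), with `A(X) = ∑_{n<p} C(2n,n) f_n Xⁿ` and `S(Y) = ∑_{k<p} C(2k,k)² C(3k,k) Yᵏ`,
`3 (1+8sᵖ)² A(X)/(1+8s) = 2 (1+4sᵖ)² S(Y)/(1+4s) + (1+16sᵖ)² S(Y')/(1+16s)`.
For `s = -1` this expresses `Z_p(-49)` through `S(-1/27)` and `S(1/15³)`; for the roots `s` of `64s²+11s+1` it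
expresses `Z_p(5)` through `S(-1/27)`.
-/

open Finset

namespace Pool.Agent.Results.MP_8cc25e_nt.FranelFiveFortyNine

/-- the Franel numbers -/
def f (n : ℕ) : ℕ := ∑ k ∈ range (n + 1), (n.choose k) ^ 3

/-- the sum `Z_p(m) = ∑_{n<p} f_n C(2n,n) m^{-n}` -/
def Z (p : ℕ) (m : ℤ) : ℚ := ∑ n ∈ range p, (f n : ℚ) * ((2 * n).choose n : ℚ) / (m : ℚ) ^ n

/-- congruence modulo `p²` of rational numbers: `(a - b) / p²` has denominator prime to `p` -/
def Cong (p : ℕ) (a b : ℚ) : Prop := p.Coprime ((a - b) / (p : ℚ) ^ 2).den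

theorem result (p : ℕ) (hp : p.Prime) (h7 : 7 < p) (m : ℤ) (hm : m = 5 ∨ m = -49) :
    ((p % 30 = 1 ∨ p % 30 = 19) → ∀ x y : ℤ, (p : ℤ) = x ^ 2 + 15 * y ^ 2 →
      Cong p (Z p m) (4 * (x : ℚ) ^ 2 - 2 * p)) ∧
    ((p % 30 = 17 ∨ p % 30 = 23) → ∀ x y : ℤ, (p : ℤ) = 3 * x ^ 2 + 5 * y ^ 2 →
      Cong p (Z p m) (2 * p - 12 * (x : ℚ) ^ 2)) ∧
    ((p % 30 = 7 ∨ p % 30 = 11 ∨ p % 30 = 13 ∨ p % 30 = 29) → Cong p (Z p m) 0) := by
  have : Fact p.Prime := ⟨hp⟩
  have hM : ¬ (p : ℤ) ∣ m := by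
    rcases hm with rfl | rfl
    · have := Pool.Agent.H546.ndvd_of_primes p (n := 5) (l := [5]) (by simp; norm_num)
        (by norm_num) (by simp; omega)
      exact_mod_cast this
    · rw [dvd_neg]
      have := Pool.Agent.H546.ndvd_of_primes p (n := 49) (l := [7, 7]) (by simp; norm_num)
        (by norm_num) (by simp; omega)
      exact_mod_cast this
  obtain ⟨wi, hwi⟩ := Pool.Agent.H546.inv_exists hM
  have tr : ∀ E : ℤ, Pool.Agent.H547.AA p wi = ((E : ℤ) : ZMod (p ^ 2)) → Cong p (Z p m) (E : ℚ) := by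
    intro E hE
    have := Pool.Agent.H547.trA hM hwi E hE
    unfold Cong
    rw [Nat.Prime.coprime_iff_not_dvd hp]
    have e : Z p m = ∑ k ∈ range p, ((k.centralBinom : ℚ) * (Pool.Agent.H547.fr k : ℚ)) / (m : ℚ) ^ k := by
      unfold Z
      refine sum_congr rfl fun k _ => ?_
      rw [Nat.centralBinom, mul_comm (f k : ℚ)]
      rfl
    rw [e]
    exact this
  obtain ⟨h1, h2, h4⟩ := Pool.Agent.H547.ec_main p h7 (wi := wi) (by
    rcases hm with rfl | rfl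
    · exact Or.inl hwi
    · exact Or.inr hwi)
  refine ⟨fun hc x y hxy => ?_, fun hc x y hxy => ?_, fun hc => ?_⟩
  · have := tr _ (h1 x y (by omega) hxy)
    push_cast at this
    exact this
  · have := tr _ (h2 x y (by omega) hxy)
    push_cast at this
    exact this
  · have := tr 0 (by rw [h4 (by omega)]; push_cast; rfl)
    push_cast at this
    exact this

end Pool.Agent.Results.MP_8cc25e_nt.FranelFiveFortyNine
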